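import Pool.Agent.L7h34.BO.Stm
import Pool.Agent.TH423.SH.PAIP

set_option autoImplicit false

/-! Project BO: relative density, from the theorem for the counting function. -/

namespace Pool.Agent.L7h34.BO

open Finset Polynomial Filter Pool.Agent.H319B

/-- a lower bound for the number of primes in a class mod 8 -/
theorem prime_lower (a : ℕ) (ha : a.Coprime 8) : ∃ x₀ : ℕ, ∀ x : ℕ, x₀ ≤ x →
    (x : ℝ) / (32 * Real.log x) ≤ ({q : ℕ | q ≤ x ∧ q.Prime ∧ q % 8 = a % 8}.ncard : ℝ) := by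
  obtain ⟨x₀, hx₀⟩ := Pool.Agent.TH423.SH.pai 8 (by norm_num) (1 / 2) (1 / 4) (by norm_num)
    (by norm_num)
  refine ⟨⌈x₀⌉₊ + 4, fun x hx => ?_⟩
  have hx1 : x₀ ≤ (x : ℝ) := by
    refine (Nat.le_ceil x₀).trans ?_
    exact_mod_cast (by omega : ⌈x₀⌉₊ ≤ x)
  have hx4 : (4 : ℝ) ≤ x := by exact_mod_cast (by omega : 4 ≤ x)
  have hu1 : (x : ℝ) / 2 ≤ (((x + 1) / 2 : ℕ) : ℝ) := by
    have : x ≤ 2 * ((x + 1) / 2) := by omega
    have : (x : ℝ) ≤ 2 * (((x + 1) / 2 : ℕ) : ℝ) := by exact_mod_cast this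
    linarith
  have hu2 : (((x + 1) / 2 : ℕ) : ℝ) ≤ ((x : ℝ) + 1) / 2 := by
    have : 2 * ((x + 1) / 2) ≤ x + 1 := by omega
    have : 2 * (((x + 1) / 2 : ℕ) : ℝ) ≤ x + 1 := by exact_mod_cast this
    linarith
  have h := hx₀ x hx1 ((x + 1) / 2) x a hu1 (by linarith) (by linarith) ha
  have h1 := (abs_le.1 h).1
  have hφ : Nat.totient 8 = 4 := by decide
  rw [hφ] at h1
  have hlog : 0 < Real.log x := Real.log_pos (by linarith)
  have h2 : (x : ℝ) / 4 ≤ (x : ℝ) - (((x + 1) / 2 : ℕ) : ℝ) := by linarith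
  have h3 : (x : ℝ) / 4 / (((4 : ℕ) : ℝ) * Real.log x) ≤
      ((x : ℝ) - (((x + 1) / 2 : ℕ) : ℝ)) / (((4 : ℕ) : ℝ) * Real.log x) :=
    div_le_div_of_nonneg_right h2 (by positivity)
  have h4 : (x : ℝ) / (32 * Real.log x) = (x : ℝ) / 4 / (((4 : ℕ) : ℝ) * Real.log x) / 2 := by
    push_cast
    field_simp
    norm_num
  have h5 : (((Ioc ((x + 1) / 2) x).filter (fun q => q.Prime ∧ q % 8 = a % 8)).card : ℝ) ≤
      ({q : ℕ | q ≤ x ∧ q.Prime ∧ q % 8 = a % 8}.ncard : ℝ) := by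
    rw [← Set.ncard_coe_finset]
    have hfin : ({q : ℕ | q ≤ x ∧ q.Prime ∧ q % 8 = a % 8}).Finite :=
      (Set.finite_Iic x).subset (fun q hq => hq.1)
    have hsub : (((Ioc ((x + 1) / 2) x).filter (fun q => q.Prime ∧ q % 8 = a % 8) : Finset ℕ) :
        Set ℕ) ⊆ {q : ℕ | q ≤ x ∧ q.Prime ∧ q % 8 = a % 8} := by
      intro q hq
      rw [Finset.mem_coe, Finset.mem_filter, Finset.mem_Ioc] at hq
      exact ⟨hq.1.2, hq.2.1, hq.2.2⟩
    exact_mod_cast Set.ncard_le_ncard hsub hfin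
  rw [h4]
  linarith

/-- density -/
theorem density (hF : S_FIN2) (a : ℕ) (ha : a = 1 ∨ a = 7) : Tendsto (fun x : ℕ =>
    ({q : ℕ | q ≤ x ∧ q.Prime ∧ q % 8 = a ∧ ¬ Irreducible (Rn (3 * q + 2))}.ncard : ℝ) /
      ({q : ℕ | q ≤ x ∧ q.Prime ∧ q % 8 = a}.ncard : ℝ)) atTop (nhds 0) := by
  obtain ⟨K, hK, x₀, hx₀⟩ := hF
  have hco : a.Coprime 8 := by
    rcases ha with rfl | rfl <;> decide
  have hmod : a % 8 = a := by
    rcases ha with rfl | rfl <;> rfl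
  obtain ⟨x₁, hx₁⟩ := prime_lower a hco
  have hlog : Tendsto (fun x : ℕ => Real.log (x : ℝ)) atTop atTop :=
    Real.tendsto_log_atTop.comp tendsto_natCast_atTop_atTop
  have hlim : Tendsto (fun x : ℕ => 32 * K / Real.log (x : ℝ)) atTop (nhds 0) :=
    hlog.const_div_atTop _
  refine squeeze_zero' (Eventually.of_forall fun x => by positivity) ?_ hlim
  filter_upwards [eventually_ge_atTop (x₀ + x₁ + 4), hlog.eventually_gt_atTop 0] with x hx hl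
  have hx0 : (0 : ℝ) < x := by exact_mod_cast (by omega : 0 < x)
  have h1 := hx₀ x (by omega)
  have h2 := hx₁ x (by omega)
  rw [hmod] at h2
  have h3 : ({q : ℕ | q ≤ x ∧ q.Prime ∧ q % 8 = a ∧ ¬ Irreducible (Rn (3 * q + 2))}.ncard : ℝ) ≤
      K * x / (Real.log x) ^ 2 := by
    refine le_trans ?_ h1
    have hfin : ({q : ℕ | q ≤ x ∧ q.Prime ∧ (q % 8 = 1 ∨ q % 8 = 7) ∧
        ¬ Irreducible (Rn (3 * q + 2))}).Finite :=
      (Set.finite_Iic x).subset (fun q hq => hq.1)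
    have hsub : {q : ℕ | q ≤ x ∧ q.Prime ∧ q % 8 = a ∧ ¬ Irreducible (Rn (3 * q + 2))} ⊆
        {q : ℕ | q ≤ x ∧ q.Prime ∧ (q % 8 = 1 ∨ q % 8 = 7) ∧ ¬ Irreducible (Rn (3 * q + 2))} := by
      rintro q ⟨h4, h5, h6, h7⟩
      refine ⟨h4, h5, ?_, h7⟩
      rw [h6]
      exact ha
    exact_mod_cast Set.ncard_le_ncard hsub hfin
  have hpos : 0 < (x : ℝ) / (32 * Real.log x) := by positivity
  calc _ ≤ (K * x / (Real.log x) ^ 2) / ((x : ℝ) / (32 * Real.log x)) :=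
        div_le_div₀ (by positivity) h3 hpos h2
    _ = 32 * K / Real.log (x : ℝ) := by
        field_simp

end Pool.Agent.L7h34.BO
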