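import Mathlib

set_option autoImplicit false

/-!
# The Bernoulli polynomial of degree eleven
-/

namespace Pool.Agent.L7h34.BO

open Polynomial

theorem b11 : Polynomial.bernoulli 11 =
    X ^ 11 - C (11 / 2) * X ^ 10 + C (55 / 6) * X ^ 9 - C 11 * X ^ 7 + C 11 * X ^ 5
    - C (11 / 2) * X ^ 3 + C (5 / 6) * X := by
  have h0 : _root_.bernoulli 0 = 1 := by decide +kernel
  have h1 : _root_.bernoulli 1 = -1 / 2 := by decide +kernel
  have h2 : _root_.bernoulli 2 = 1 / 6 := by decide +kernel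
  have h3 : _root_.bernoulli 3 = 0 := by decide +kernel
  have h4 : _root_.bernoulli 4 = -1 / 30 := by decide +kernel
  have h5 : _root_.bernoulli 5 = 0 := by decide +kernel
  have h6 : _root_.bernoulli 6 = 1 / 42 := by decide +kernel
  have h7 : _root_.bernoulli 7 = 0 := by decide +kernel
  have h8 : _root_.bernoulli 8 = -1 / 30 := by decide +kernel
  have h9 : _root_.bernoulli 9 = 0 := by decide +kernel
  have h10 : _root_.bernoulli 10 = 5 / 66 := by decide +kernel
  have h11 : _root_.bernoulli 11 = 0 := by decide +kernel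
  have c2 : Nat.choose 11 2 = 55 := by decide
  have c4 : Nat.choose 11 4 = 330 := by decide
  have c6 : Nat.choose 11 6 = 462 := by decide
  have c8 : Nat.choose 11 8 = 165 := by decide
  have c10 : Nat.choose 11 10 = 11 := by decide
  have e1 : -1 / 2 * ((11 : ℕ) : ℚ) = -(11 / 2) := by norm_num
  have e2 : 1 / 6 * ((55 : ℕ) : ℚ) = 55 / 6 := by norm_num
  have e4 : -1 / 30 * ((330 : ℕ) : ℚ) = -11 := by norm_num
  have e6 : 1 / 42 * ((462 : ℕ) : ℚ) = 11 := by norm_num
  have e8 : -1 / 30 * ((165 : ℕ) : ℚ) = -(11 / 2) := by norm_num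
  have e10 : 5 / 66 * ((11 : ℕ) : ℚ) = 5 / 6 := by norm_num
  rw [Polynomial.bernoulli]
  simp only [Finset.sum_range_succ, Finset.sum_range_zero, h0, h1, h2, h3, h4, h5, h6, h7, h8,
    h9, h10, h11, c2, c4, c6, c8, c10, Nat.choose_one_right, Nat.choose_zero_right, e1, e2, e4, e6,
    e8, e10, zero_mul, map_zero, Nat.cast_one, mul_one, ← C_mul_X_pow_eq_monomial, zero_add,
    add_zero, map_neg, map_one, one_mul, neg_mul, Nat.reduceSub, pow_one]
  ring

theorem factor11 : Polynomial.bernoulli 11 =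
    X * (X - C (1 / 2)) * (X - 1) * ((X ^ 2 - X - 1) *
      (X ^ 6 - C 3 * X ^ 5 + C (2 / 3) * X ^ 4 + C (11 / 3) * X ^ 3 + X ^ 2 - C (10 / 3) * X
        - C (5 / 3))) := by
  rw [b11]
  apply Polynomial.funext
  intro r
  simp only [eval_add, eval_sub, eval_mul, eval_pow, eval_X, eval_C, eval_one]
  ring

/-- the cofactor has degree six -/
theorem natDegree_cofactor : (X ^ 6 - C 3 * X ^ 5 + C (2 / 3) * X ^ 4 + C (11 / 3) * X ^ 3 + X ^ 2
    - C (10 / 3) * X - C (5 / 3) : ℚ[X]).natDegree = 6 := by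
  compute_degree!

theorem natDegree_golden : (X ^ 2 - X - 1 : ℚ[X]).natDegree = 2 := by
  compute_degree!

end Pool.Agent.L7h34.BO
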