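import Pool.Agent.L7h34.BO.Stm

set_option autoImplicit false

/-! Project BO, part IRR. -/

namespace Pool.Agent.L7h34.BO

open Finset Polynomial Pool.Agent.H319B Pool.Agent.L7h58.BP

theorem Rn_symm (n : ℕ) (hn : 3 ≤ n) (ho : Odd n) : (Rn n).comp (1 - X) = Rn n := by
  obtain ⟨he, hm, -⟩ := Rn_spec n hn ho
  have h1 := Polynomial.bernoulli_comp_one_sub_X n
  rw [ho.neg_one_pow, he] at h1
  have h2 : (X * (X - C (1 / 2)) * (X - C 1) : ℚ[X]).comp (1 - X) =
      -(X * (X - C (1 / 2)) * (X - C 1)) := by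
    apply Polynomial.funext
    intro r
    simp only [eval_comp, eval_mul, eval_sub, eval_X, eval_C, eval_one, eval_neg]
    ring
  rw [mul_comp, h2] at h1
  have h3 : (X * (X - C (1 / 2)) * (X - C 1) : ℚ[X]) * (Rn n).comp (1 - X) =
      (X * (X - C (1 / 2)) * (X - C 1)) * Rn n := by
    linear_combination -h1
  exact mul_left_cancel₀ cubic_monic.ne_zero h3

theorem bd_ge (r q : ℕ) (hr : 1 ≤ r) (hq : 1 ≤ q) :
    5 * Real.sqrt (((r * q + 2 : ℕ) : ℝ) / Real.log ((r * q + 2 : ℕ) : ℝ)) ≤ bd r q := by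
  unfold bd
  have hr' : (1 : ℝ) ≤ r := by exact_mod_cast hr
  have hq' : (1 : ℝ) ≤ q := by exact_mod_cast hq
  have hlog : 0 < Real.log ((q : ℝ) + 2) := Real.log_pos (by linarith)
  have h0 : (0 : ℝ) ≤ r := by linarith
  rw [mul_assoc, ← Real.sqrt_mul h0]
  apply mul_le_mul_of_nonneg_left _ (by norm_num)
  apply Real.sqrt_le_sqrt
  push_cast
  rw [← mul_div_assoc]
  have h1 : (r : ℝ) * q + 2 ≤ r * (q + 2) := by nlinarith
  have h2 : Real.log ((q : ℝ) + 2) ≤ Real.log (r * q + 2) := by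
    apply Real.log_le_log (by linarith)
    nlinarith
  exact div_le_div₀ (by positivity) h1 hlog h2

theorem bd_gt (q : ℕ) (hq : 1 ≤ q) : 5 < bd 3 q := by
  unfold bd
  have hq' : (1 : ℝ) ≤ q := by exact_mod_cast hq
  have hlog : 0 < Real.log ((q : ℝ) + 2) := Real.log_pos (by linarith)
  have h1 : 1 ≤ Real.sqrt (((q : ℝ) + 2) / Real.log ((q : ℝ) + 2)) := by
    rw [Real.one_le_sqrt, one_le_div hlog]
    have := Real.log_le_sub_one_of_pos (show (0 : ℝ) < (q : ℝ) + 2 by linarith)
    linarith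
  have h2 : 1 < Real.sqrt ((3 : ℕ) : ℝ) := by
    rw [Real.lt_sqrt (by norm_num)]
    norm_num
  generalize Real.sqrt ((3 : ℕ) : ℝ) = s at *
  generalize Real.sqrt (((q : ℝ) + 2) / Real.log ((q : ℝ) + 2)) = t at *
  nlinarith [mul_nonneg (sub_nonneg.2 h2.le) (sub_nonneg.2 h1)]

theorem s_IRR (hS : S_SMALL) (hP : S_POLO) (hC : S_CENO) : S_IRR := by
  obtain ⟨n₀, hn₀⟩ := two_factor_R
  refine ⟨n₀ + 5, fun q hq hqp hq8 hord hY => ?_⟩
  have hodd : Odd q := hqp.odd_of_ne_two (by omega)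
  have hon : Odd (3 * q + 2) := by
    rcases hodd with ⟨k, hk⟩
    exact ⟨3 * k + 2, by omega⟩
  obtain ⟨hB, hRm, hRd⟩ := Rn_spec (3 * q + 2) (by omega) hon
  have hR0 : Rn (3 * q + 2) ≠ 0 := hRm.ne_zero
  have h5 : 5 < orderOf (2 : ZMod q) := by
    have := bd_gt q (by omega)
    exact_mod_cast this.trans hord
  have hsm : ∀ g : ℚ[X], g ∣ Rn (3 * q + 2) → g.natDegree < orderOf (2 : ZMod q) →
      g.natDegree = 0 ∨ g.natDegree = 2 := fun g hg hd =>
    (hS 3 q (by decide) hqp (by omega) g hg hd).2 rfl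
  -- small divisors are constant
  have key : ∀ g : ℚ[X], g.Monic → g ∣ Rn (3 * q + 2) →
      (g.natDegree : ℝ) ≤ 5 * Real.sqrt (((3 * q + 2 : ℕ) : ℝ) / Real.log ((3 * q + 2 : ℕ) : ℝ)) →
      g.natDegree = 0 := by
    intro g hg hgR hgd
    have h1 := bd_ge 3 q (by norm_num) (by omega)
    have h2 : g.natDegree < orderOf (2 : ZMod q) := by
      exact_mod_cast (hgd.trans h1).trans_lt hord
    rcases hsm g hgR h2 with h3 | h3
    · exact h3
    · exfalso
      have hg1 : g ≠ 1 := by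
        rintro rfl
        rw [natDegree_one] at h3
        omega
      have hirr : Irreducible g := by
        rw [hg.irreducible_iff_natDegree]
        refine ⟨hg1, fun a b ha hb hab => ?_⟩
        have h4 : a.natDegree + b.natDegree = 2 := by
          rw [← ha.natDegree_mul hb, hab, h3]
        have h5' := hsm a ((Dvd.intro b hab).trans hgR) (by omega)
        omega
      set g' : ℚ[X] := g.comp (1 - X) with hg'
      have hg'R : g' ∣ Rn (3 * q + 2) := by
        obtain ⟨k, hk⟩ := hgR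
        refine ⟨k.comp (1 - X), ?_⟩
        rw [hg', ← mul_comp, ← hk, Rn_symm _ (by omega) hon]
      have hX : (1 - X : ℚ[X]).natDegree = 1 := by
        rw [show (1 - X : ℚ[X]) = -(X - C 1) by rw [C_1]; ring, natDegree_neg, natDegree_X_sub_C]
      have hXl : (1 - X : ℚ[X]).leadingCoeff = -1 := by
        rw [show (1 - X : ℚ[X]) = -(X - C 1) by rw [C_1]; ring, leadingCoeff_neg,
          leadingCoeff_X_sub_C]
      have hg'd : g'.natDegree = 2 := by
        rw [hg', natDegree_comp, hX, h3]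
      have hg'm : g'.Monic := by
        rw [Monic, hg', leadingCoeff_comp (by rw [hX]; norm_num), hXl, h3, hg.leadingCoeff]
        norm_num
      have hsymm : g.comp (1 - X) = g := by
        by_cases hdv : g ∣ g'
        · exact eq_of_monic_of_dvd_of_natDegree_le hg hg'm hdv (by rw [h3, hg'd])
        · exfalso
          have hcop : IsCoprime g g' := (hirr.coprime_iff_not_dvd).2 hdv
          have hprod : g * g' ∣ Rn (3 * q + 2) := hcop.mul_dvd hgR hg'R
          have hpd : (g * g').natDegree = 4 := by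
            rw [hg.natDegree_mul hg'm, h3, hg'd]
          have h6 := hsm _ hprod (by rw [hpd]; omega)
          rw [hpd] at h6
          omega
      obtain ⟨Y, hY1, hY2⟩ := hP q g hqp (by omega) hq8 h3 hsymm hgR
      refine hY Y hY1 (hC (3 * q + 2) Y hon (by omega) ?_ hY2)
      rintro rfl
      exact hY1 (dvd_zero _)
  refine irred_of _ (by omega) hon (fun g h hg hh hgh => ?_)
  rcases hn₀ (3 * q + 2) (by omega) hon g h hg hh hgh with h1 | h1
  · exact Or.inl (key g hg ⟨h, hgh.symm⟩ h1)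
  · exact Or.inr (key h hh ⟨g, hgh.symm.trans (mul_comm g h)⟩ h1)

end Pool.Agent.L7h34.BO
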