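import Pool.Agent.L7h34.BO.Den
import Pool.Agent.L7h34.BO.Irr

set_option autoImplicit false

/-! Project BO: the statements in terms of the Bernoulli polynomials themselves. -/

namespace Pool.Agent.L7h34.BO

open Finset Polynomial Filter Pool.Agent.H319B

theorem ncard_mono_le {x : ℕ} {P Q : ℕ → Prop} (h : ∀ q, q ≤ x → P q → Q q) :
    ({q : ℕ | q ≤ x ∧ P q}.ncard : ℝ) ≤ ({q : ℕ | q ≤ x ∧ Q q}.ncard : ℝ) := by
  have hfin : ({q : ℕ | q ≤ x ∧ Q q}).Finite :=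
    (Set.finite_Iic x).subset (fun q hq => hq.1)
  have hsub : {q : ℕ | q ≤ x ∧ P q} ⊆ {q : ℕ | q ≤ x ∧ Q q} := fun q hq => ⟨hq.1, h q hq.1 hq.2⟩
  exact_mod_cast Set.ncard_le_ncard hsub hfin

theorem odd_add {r q : ℕ} (hr : Odd r) (hq : Odd q) : Odd (r * q + 2) := by
  rcases hr.mul hq with ⟨k, hk⟩
  exact ⟨k + 1, by omega⟩

theorem claim2_of (h2 : S_FIN2) :
    (∃ K : ℝ, 0 < K ∧ ∃ x₀ : ℕ, ∀ x : ℕ, x₀ ≤ x →
      ({q : ℕ | q ≤ x ∧ q.Prime ∧ (q % 8 = 1 ∨ q % 8 = 7) ∧ ¬ ∃ R : ℚ[X],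
        Polynomial.bernoulli (3 * q + 2) = X * (X - C (1 / 2)) * (X - C 1) * R ∧
          Irreducible R}.ncard : ℝ) ≤ K * x / (Real.log x) ^ 2) ∧
    ∀ a : ℕ, a = 1 ∨ a = 7 → Tendsto (fun x : ℕ =>
      ({q : ℕ | q ≤ x ∧ q.Prime ∧ q % 8 = a ∧ ¬ ∃ R : ℚ[X],
        Polynomial.bernoulli (3 * q + 2) = X * (X - C (1 / 2)) * (X - C 1) * R ∧
          Irreducible R}.ncard : ℝ) /
        ({q : ℕ | q ≤ x ∧ q.Prime ∧ q % 8 = a}.ncard : ℝ)) atTop (nhds 0) := by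
  refine ⟨?_, ?_⟩
  · obtain ⟨K, hK, x₀, hx⟩ := h2
    refine ⟨K, hK, x₀, fun x hx' => le_trans ?_ (hx x hx')⟩
    apply ncard_mono_le
    rintro q - ⟨hq, hq8, hR⟩
    refine ⟨hq, hq8, fun hirr => hR ⟨Rn (3 * q + 2), ?_, hirr⟩⟩
    have hodd : Odd q := hq.odd_of_ne_two (by rintro rfl; omega)
    have := hq.two_le
    exact (Rn_spec (3 * q + 2) (by omega) (odd_add (by decide) hodd)).1
  · intro a ha
    refine squeeze_zero (fun x => by positivity) (fun x => ?_) (density h2 a ha)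
    refine div_le_div_of_nonneg_right ?_ (by positivity)
    apply ncard_mono_le
    rintro q - ⟨hq, hq8, hR⟩
    refine ⟨hq, hq8, fun hirr => hR ⟨Rn (3 * q + 2), ?_, hirr⟩⟩
    have hodd : Odd q := hq.odd_of_ne_two (by rintro rfl; rcases ha with rfl | rfl <;> omega)
    have := hq.two_le
    exact (Rn_spec (3 * q + 2) (by omega) (odd_add (by decide) hodd)).1

theorem claim1_of (h1 : S_FIN1) :
    ∀ r : ℕ, Odd r → ∃ K : ℝ, 0 < K ∧ ∃ x₀ : ℕ, ∀ x : ℕ, x₀ ≤ x →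
      ({q : ℕ | q ≤ x ∧ q.Prime ∧ q ≠ 2 ∧ ¬ ∃ R h : ℚ[X],
        Polynomial.bernoulli (r * q + 2) = X * (X - C (1 / 2)) * (X - C 1) * R ∧
          Irreducible h ∧ h ∣ R ∧ r * (q - 1) ≤ h.natDegree}.ncard : ℝ) ≤
        K * x / (Real.log x) ^ 2 := by
  intro r hr
  obtain ⟨K, hK, x₀, hx⟩ := h1 r hr
  refine ⟨K, hK, x₀, fun x hx' => le_trans ?_ (hx x hx')⟩
  apply ncard_mono_le
  rintro q - ⟨hq, hq2, hR⟩
  refine ⟨hq, ?_⟩
  rintro ⟨h, hh1, hh2, hh3⟩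
  apply hR
  have hodd : Odd q := hq.odd_of_ne_two hq2
  have hr1 : 1 ≤ r := hr.pos
  have hq3 : 3 ≤ q := by
    have := hq.two_le
    omega
  have hrq : 3 ≤ r * q := by nlinarith
  exact ⟨Rn (r * q + 2), h, (Rn_spec (r * q + 2) (by omega) (odd_add hr hodd)).1, hh1, hh2, hh3⟩

end Pool.Agent.L7h34.BO
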