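import Pool.Agent.L7h34.BO.StmQ
import Pool.Agent.L7h61.BO.Polo

set_option autoImplicit false

/-! Project BO, second stage, part POLG (helper61's proof of POLO for all `n = 2` mod 3). -/

namespace Pool.Agent.L7h34.BO

open Pool.Agent.L7h58.BP Pool.Agent.H319B Finset Polynomial Pool.Agent.L7h61.BO
open Pool.Agent.L7h10.BP (sym_shape coeff_two bernoulli_natDegree)

theorem s_POLG (hR : S_REDO) (hN : S_NRTO) : S_POLG := by
  intro n hn5 hno hn3 c hgR
  obtain ⟨hB, hRm, -⟩ := Rn_spec n (by omega) hno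
  have hg : (X ^ 2 - X + C c) ∣ Polynomial.bernoulli n := by
    rw [hB]
    exact Dvd.dvd.mul_left hgR _
  obtain ⟨P, hP, hPl⟩ := hR n hno (by omega)
  set D : ℕ := primorial (n + 1) with hD
  have hDpos : 0 < D := primorial_pos _
  have hDq : (D : ℚ) ≠ 0 := Nat.cast_ne_zero.2 hDpos.ne'
  have hsq : Squarefree D := squarefree_primorial _
  have hinj : Function.Injective (Int.castRingHom ℚ) := Int.cast_injective
  obtain ⟨hdB, hlB⟩ := bernoulli_natDegree n
  set a : ℕ := c.den with ha
  have ha0 : 0 < a := c.pos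
  set F : ℤ[X] := C (a : ℤ) * X ^ 2 - C (a : ℤ) * X + C c.num with hF
  have hFc2 : F.coeff 2 = a := by
    rw [hF]; simp [coeff_X, coeff_C, -eq_intCast]
  have hFc0 : F.coeff 0 = c.num := by
    rw [hF]; simp [-eq_intCast]
  have hFdeg : F.natDegree = 2 := by
    apply le_antisymm
    · rw [natDegree_le_iff_coeff_eq_zero]
      intro j hj
      rw [hF]
      simp [coeff_X, coeff_C, show j ≠ 0 by omega, show j ≠ 2 by omega, show 1 ≠ j by omega,
        -eq_intCast]
    · apply le_natDegree_of_ne_zero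
      rw [hFc2]
      exact_mod_cast ha0.ne'
  have hFlead : F.leadingCoeff = a := by rw [leadingCoeff, hFdeg, hFc2]
  have hcop : IsCoprime (c.num) (a : ℤ) := by
    rw [Int.isCoprime_iff_nat_coprime]
    simpa using c.reduced
  have hFprim : F.IsPrimitive := by
    intro r hr
    rw [C_dvd_iff_dvd_coeff] at hr
    have h0 := hr 0
    have h2 := hr 2
    rw [hFc0] at h0
    rw [hFc2] at h2
    exact hcop.isUnit_of_dvd' h0 h2
  have hFmap : F.map (Int.castRingHom ℚ) = C (a : ℚ) * (X ^ 2 - X + C c) := by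
    rw [hF]
    have h1 : (C (c.num : ℚ) : ℚ[X]) = C (a : ℚ) * C c := by
      rw [← C_mul]
      congr 1
      rw [mul_comm]
      exact (Rat.mul_den_eq_num c).symm
    simp only [Polynomial.map_add, Polynomial.map_sub, Polynomial.map_mul, Polynomial.map_C,
      Polynomial.map_pow, Polynomial.map_X]
    have h2 : (Int.castRingHom ℚ) (a : ℤ) = (a : ℚ) := by simp
    have h3 : (Int.castRingHom ℚ) c.num = (c.num : ℚ) := rfl
    rw [h2, h3, h1]
    ring
  have haq : (a : ℚ) ≠ 0 := Nat.cast_ne_zero.2 ha0.ne'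
  have hFP : F * E3 ∣ P := by
    rw [IsPrimitive.Int.dvd_iff_map_cast_dvd_map_cast (F * E3) P (hFprim.mul E3_prim), hP,
      Polynomial.map_mul, hFmap, E3_map, hB]
    obtain ⟨h, hh⟩ := hgR
    refine ⟨C ((D : ℚ) / (2 * a)) * h, ?_⟩
    rw [hh]
    have : (C (a : ℚ) : ℚ[X]) * C 2 * C ((D : ℚ) / (2 * a)) = C (D : ℚ) := by
      rw [← C_mul, ← C_mul]
      congr 1
      field_simp
    linear_combination (-(X ^ 2 - X + C c) * h * (X * (X - C (1 / 2)) * (X - C 1))) * this
  obtain ⟨G₁, hG₁⟩ := hFP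
  set G : ℤ[X] := E3 * G₁ with hGdef
  have hG : P = F * G := by rw [hG₁, hGdef]; ring
  have hPlead : P.leadingCoeff = D := by
    have h1 : (P.map (Int.castRingHom ℚ)).leadingCoeff = (D : ℚ) := by
      rw [hP, leadingCoeff_mul, hlB, leadingCoeff_C, mul_one]
    rw [leadingCoeff_map_of_injective hinj] at h1
    have h2 : ((P.leadingCoeff : ℤ) : ℚ) = ((D : ℤ) : ℚ) := by
      rw [Int.cast_natCast]
      exact h1
    exact_mod_cast h2
  have hPdeg : P.natDegree = n := by
    rw [← natDegree_map_eq_of_injective hinj, hP, natDegree_C_mul hDq, hdB]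
  have hP0 : P ≠ 0 := by
    intro h
    rw [h, leadingCoeff_zero] at hPlead
    have : (D : ℤ) ≠ 0 := by exact_mod_cast hDpos.ne'
    exact this hPlead.symm
  have hF0 : F ≠ 0 := by
    intro h
    rw [h, zero_mul] at hG
    exact hP0 hG
  have hG0 : G ≠ 0 := by
    intro h
    rw [h, mul_zero] at hG
    exact hP0 hG
  have hGdeg : G.natDegree = n - 2 := by
    have := natDegree_mul hF0 hG0
    rw [← hG, hPdeg, hFdeg] at this
    omega
  have hlead : (a : ℤ) * G.leadingCoeff = D := by
    rw [← hFlead, ← leadingCoeff_mul, ← hG, hPlead]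
  have haD : a ∣ D := by
    have : (a : ℤ) ∣ (D : ℤ) := ⟨_, hlead.symm⟩
    exact_mod_cast this
  have hasq : Squarefree a := hsq.squarefree_of_dvd haD
  have hP2 : 6 * P.coeff (n - 2) = D * (n.choose 2 : ℤ) := by
    have h1 : (P.map (Int.castRingHom ℚ)).coeff (n - 2) =
        D * (Polynomial.bernoulli n).coeff (n - 2) := by
      rw [hP, coeff_C_mul]
    rw [coeff_map, eq_intCast] at h1
    have h2 := coeff_two n (by omega)
    have h3 : (6 : ℚ) * (P.coeff (n - 2) : ℚ) = D * (n.choose 2 : ℚ) := by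
      rw [h1, ← h2]
      ring
    exact_mod_cast h3
  -- primes which divide a and the leading coefficient of G do not exist
  have hnosq : ∀ p : ℕ, p.Prime → p ∣ a → ¬ (p : ℤ) ∣ G.leadingCoeff := by
    intro p hp hpa h5
    have hpaZ : (p : ℤ) ∣ (a : ℤ) := by exact_mod_cast hpa
    have h6 : ((p * p : ℕ) : ℤ) ∣ (D : ℤ) := by
      rw [← hlead, Nat.cast_mul]
      exact mul_dvd_mul hpaZ h5
    have h7 : p * p ∣ D := by exact_mod_cast h6
    have h8 := hsq p h7
    exact hp.one_lt.ne' (Nat.isUnit_iff.mp h8)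
  -- primes at least 5 do not divide a
  have hbig : ∀ p : ℕ, p.Prime → p ∣ a → p = 3 := by
    intro p hp hpa
    have hpaZ : (p : ℤ) ∣ (a : ℤ) := by exact_mod_cast hpa
    have hpp : Prime (p : ℤ) := Nat.prime_iff_prime_int.mp hp
    by_contra hcon
    by_cases h22 : p = 2
    · apply hnosq p hp hpa
      rw [hGdef, leadingCoeff_mul, E3_lead, h22]
      exact Dvd.intro _ rfl
    have hp5 : ¬ p ∣ 6 := by
      intro h
      have h6 : p ∣ 2 * 3 := h
      rcases hp.dvd_mul.mp h6 with h | h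
      · exact h22 ((Nat.prime_dvd_prime_iff_eq hp Nat.prime_two).mp h)
      · exact hcon ((Nat.prime_dvd_prime_iff_eq hp Nat.prime_three).mp h)
    have h1 : (p : ℤ) ∣ P.coeff (n - 2) := by
      have h2 : (p : ℤ) ∣ 6 * P.coeff (n - 2) := by
        rw [hP2]
        apply Dvd.dvd.mul_right
        exact_mod_cast hpa.trans haD
      rcases hpp.dvd_or_dvd h2 with h | h
      · exfalso
        apply hp5
        exact_mod_cast h
      · exact h
    have h2 : P.coeff (n - 2) = a * ((X ^ 2 - X) * G).coeff (n - 2) +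
        c.num * G.coeff (n - 2) := by
      have : P = C (a : ℤ) * ((X ^ 2 - X) * G) + C c.num * G := by
        rw [hG, hF]
        ring
      rw [this, coeff_add, coeff_C_mul, coeff_C_mul]
    have h3 : (p : ℤ) ∣ c.num * G.coeff (n - 2) := by
      have h4 : (p : ℤ) ∣ a * ((X ^ 2 - X) * G).coeff (n - 2) := hpaZ.mul_right _
      rw [h2] at h1
      exact (dvd_add_right h4).mp h1
    have h4 : ¬ (p : ℤ) ∣ c.num := by
      intro h5
      exact hpp.not_unit (hcop.isUnit_of_dvd' h5 hpaZ)
    apply hnosq p hp hpa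
    rw [leadingCoeff, hGdeg]
    exact (hpp.dvd_or_dvd h3).resolve_left h4
  have ha3 : a ∣ 3 := by
    rw [← Nat.prod_primeFactors_of_squarefree hasq]
    have : a.primeFactors ⊆ ({3} : Finset ℕ) := by
      intro p hp
      rw [Nat.mem_primeFactors] at hp
      simp [hbig p hp.1 hp.2.1]
    exact (Finset.prod_dvd_prod_of_subset _ _ _ this).trans (by decide)
  by_cases h3a : 3 ∣ a
  swap
  · right
    have ha1 : a = 1 := by
      rcases (Nat.dvd_prime Nat.prime_three).1 ha3 with h | h
      · exact h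
      · exact absurd (by rw [h]) h3a
    refine ⟨?_, c.num, ?_⟩
    · by_contra hn8
      have : Fact (Nat.Prime 3) := ⟨Nat.prime_three⟩
      have hno2 : n % 2 = 1 := Nat.odd_iff.1 hno
      obtain ⟨u, hu, hPu⟩ := hPl 3 Nat.prime_three (by norm_num) (by omega)
      apply hN n (by omega) (by omega) (F.map (Int.castRingHom (ZMod 3)))
      · refine ⟨C u⁻¹ * 2 * G₁.map (Int.castRingHom (ZMod 3)), ?_⟩
        have h1 : C u * Sp 3 n = F.map (Int.castRingHom (ZMod 3)) * (2 * (X ^ 3 - X)) *
            G₁.map (Int.castRingHom (ZMod 3)) := by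
          rw [← hPu, ← E3_mod, hG, hGdef, Polynomial.map_mul, Polynomial.map_mul]
          ring
        have h2 : C u⁻¹ * C u = (1 : (ZMod 3)[X]) := by
          rw [← C_mul, inv_mul_cancel₀ hu, C_1]
        linear_combination (C u⁻¹) * h1 - (Sp 3 n) * h2
      · rw [natDegree_map_of_leadingCoeff_ne_zero, hFdeg]
        rw [hFlead, ha1]
        simp
    · have h1 := Rat.num_div_den c
      rw [← ha, ha1] at h1
      rw [← h1]
      simp
  left
  have ha_eq : a = 3 := Nat.dvd_antisymm ha3 h3a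
  have h3N : ¬ (3 : ℤ) ∣ c.num := by
    intro h
    have h3a' : (3 : ℤ) ∣ (a : ℤ) := by exact_mod_cast h3a
    exact Int.prime_three.not_unit (hcop.isUnit_of_dvd' h h3a')
  refine ⟨3 - 4 * c.num, ?_, ?_⟩
  · intro h
    have h1 : (3 : ℤ) ∣ 4 * c.num := by
      have := dvd_sub (dvd_refl (3 : ℤ)) h
      rwa [sub_sub_cancel] at this
    rcases Int.prime_three.dvd_or_dvd h1 with h | h
    · revert h
      decide
    · exact h3N h
  · have h1 : (((3 - (3 - 4 * c.num) : ℤ)) : ℚ) / 12 = c := by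
      have h2 : c = c.num / (a : ℚ) := (Rat.num_div_den c).symm
      rw [ha_eq] at h2
      conv_rhs => rw [h2]
      push_cast
      ring
    rw [h1]
    exact hg

end Pool.Agent.L7h34.BO
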