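import Pool.Agent.H319B.Final
import Pool.Agent.L7h58.BP.Stm2

set_option autoImplicit false

/-!
# Project BO: Bernoulli polynomials of odd degree r q + 2 (problem MP_f85b9b_nt)

Main theorem (s_FIN2): for all but `O(x / (log x)^2)` primes `q ≤ x` with `q = 1` or `7` mod 8 the polynomial
`R_(3q+2)` is irreducible over the rationals.  Second theorem (s_FIN1): for fixed odd `r` and all but
`O(x / (log x)^2)` primes `q ≤ x` the polynomial `R_(rq+2)` has an irreducible factor of degree at least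
`r (q - 1)`.  Here `R_n = B_n / (x (x - 1/2) (x - 1))` is `Rn n` of the starting library H319B.

Notation: `Sp p n` is the sum of `(X + a)^n` over the residues a mod p, `Rel n Y` the relation of project BP
(`B_n(1/2 + y) = 0` for `y^2 = Y/12`).
-/

namespace Pool.Agent.L7h34.BO

open Finset Polynomial Pool.Agent.H319B Pool.Agent.L7h58.BP

/-- CYC.  u is a divisor of (1+X)^(rq) + X^(rq) over ZMod 2 of degree less than the order of 2 mod q.
Proof: (1+X)^(rq) + X^(rq) = ((1+X)^r + X^r) V with V = ∑_{i<q} (1+X)^(r i) X^(r (q-1-i)) (characteristic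
two).  u and V are coprime: otherwise let v be a common irreducible factor, of degree d ≤ deg u, and x
its root in K = AdjoinRoot v, a field with 2^d elements (pattern: `H319B.cyclo_factor`).  x ≠ 0, and
z = (1+x)/x has z^(rq) = 1.  If z^r = 1, then (1+x)^r = x^r and V(x) = q x^(r(q-1)) = x^(r(q-1)) ≠ 0 (q odd),
a contradiction.  So z^r ≠ 1, the order of z^r is q (prime), q divides 2^d - 1 and
orderOf (2 : ZMod q) ≤ d ≤ deg u, a contradiction. -/
def S_CYC : Prop := ∀ (r q : ℕ), Odd r → q.Prime → 2 < q → ∀ u : (ZMod 2)[X],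
  u ∣ (1 + X) ^ (r * q) + X ^ (r * q) → u.natDegree < orderOf (2 : ZMod q) →
  u ∣ (1 + X) ^ r + X ^ r

/-- SMALL.  Small factors of R_(rq+2).  From CYC and `H319B.mod_two_factor` (make g monic as in
`H319B.factor_degree`): u divides (1+X)^r + X^r, which is nonzero of degree ≤ r - 1.  For r = 3 it is
X^2 + X + 1, which has no root in ZMod 2, so u has degree 0 or 2. -/
def S_SMALL : Prop := ∀ (r q : ℕ), Odd r → q.Prime → 2 < q → ∀ g : ℚ[X],
  g ∣ Rn (r * q + 2) → g.natDegree < orderOf (2 : ZMod q) →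
  g.natDegree ≤ r - 1 ∧ (r = 3 → g.natDegree = 0 ∨ g.natDegree = 2)

/-- the number below which the order of 2 is bad -/
noncomputable def bd (r q : ℕ) : ℝ :=
  5 * Real.sqrt r * Real.sqrt (((q : ℝ) + 2) / Real.log ((q : ℝ) + 2))

/-- BIG.  From SMALL, `H319B.two_factor_R` (n = rq+2: √(n / log n) ≤ √r √((q+2)/log(q+2)), as n ≤ r (q+2) and
log n ≥ log (q+2)) and S_FAC with B = Rn n, D = r - 1, deg Rn n = n - 3 (make the factors monic). -/
def S_BIG : Prop := ∀ r : ℕ, Odd r → ∃ q0 : ℕ, ∀ q : ℕ, q0 ≤ q → q.Prime →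
  bd r q < (orderOf (2 : ZMod q) : ℝ) →
  ∃ h : ℚ[X], Irreducible h ∧ h ∣ Rn (r * q + 2) ∧ r * (q - 1) ≤ h.natDegree

/-- FIN1 from BIG: the exceptional q are < q0 or counted by `H319B.few_bad_primes (5 √r)`; copy the proof
of `H319B.few_reducible`. -/
def S_FIN1 : Prop := ∀ r : ℕ, Odd r → ∃ K : ℝ, 0 < K ∧ ∃ x₀ : ℕ, ∀ x : ℕ, x₀ ≤ x →
  ({q : ℕ | q ≤ x ∧ q.Prime ∧ ¬ ∃ h : ℚ[X], Irreducible h ∧ h ∣ Rn (r * q + 2) ∧
    r * (q - 1) ≤ h.natDegree}.ncard : ℝ) ≤ K * x / (Real.log x) ^ 2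

/-- REDO (odd n, odd primes; the proof of helper10's RED2).  The coefficient of X^(n-k) in
D * B_n, D = primorial (n+1), is D * choose n k * bernoulli k; k = 1 gives -(D/2) n, divisible by p. -/
def S_REDO : Prop := ∀ n : ℕ, Odd n → 3 ≤ n → ∃ P : ℤ[X],
  P.map (Int.castRingHom ℚ) = C ((primorial (n + 1) : ℕ) : ℚ) * Polynomial.bernoulli n ∧
  ∀ p : ℕ, p.Prime → 2 < p → p ≤ n + 1 → ∃ u : ZMod p, u ≠ 0 ∧
    P.map (Int.castRingHom (ZMod p)) = C u * Sp p n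

/-- NRTO.  n = 2 mod 3, n = 5 or 7 mod 8.  F of degree 2 would have a root x in a field K with 9 elements
(F splits there).  W(x) = ∑_{a mod 3} (x + a)^n.  x not in F_3: for n = 7 mod 8, W(x) = ∑ (x+a)^(-1) =
-1/(x^3 - x) ≠ 0 ((x+a)^8 = 1); for n = 5 mod 8, (x+a)^5 = ((x+a)^(-1))^3, so W(x) = (∑ (x+a)^(-1))^3 ≠ 0.
x in F_3: W(X) = Sp 3 n is invariant under X → X + 1 and its coefficient of X^1 is -n ≠ 0 (coefficient of X^0
is 0, as ∑ a^n = 0), so x is a simple root of Sp 3 n, but F * (X^3 - X) has a double root at x.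
(Derivative: n ∑ (X+a)^(n-1), at x in F_3: n ∑_a a^(n-1) = 2n ≠ 0.) -/
def S_NRTO : Prop := ∀ n : ℕ, n % 3 = 2 → (n % 8 = 5 ∨ n % 8 = 7) → ∀ F : (ZMod 3)[X],
  F * (X ^ 3 - X) ∣ Sp 3 n → F.natDegree ≠ 2

/-- CENO (odd n; the proof of helper10's CEN; `n / 2 = (n-1)/2`, divide B_n(1/2 + y) by y^n,
y^2 = Y/12 ≠ 0). -/
def S_CENO : Prop := ∀ (n : ℕ) (Y : ℤ), Odd n → 3 ≤ n → Y ≠ 0 →
  (X ^ 2 - X + C (((3 - Y : ℤ) : ℚ) / 12)) ∣ Polynomial.bernoulli n → Rel n Y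

/-- POLO (helper10's POL for odd n; uses REDO, NRTO).  n = 3q + 2.  f = a1 (X^2 - X + c), a = den c,
F = a X^2 - a X + a c, E = X (2X - 1) (X - 1) are primitive, so P = F E G in ℤ[X] (REDO, Gauss);
2 a lead G = primorial (n+1) is squarefree, so a is odd.  A prime p ≥ 5 does not divide a: otherwise F mod p is a
nonzero constant and P mod p has degree n - 2, but the coefficient of X^(n-2) in P is
primorial (n+1) * choose n 2 / 6, divisible by p.  So a = 1 or 3, and a = 1 is impossible: F mod 3 has degree 2,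
E = 2 (X^3 - X) mod 3 and F E divides P mod 3 = u Sp 3 n, against NRTO.  So c = b/3 with b prime to 3 and
Y = 3 - 12 c = 3 - 4 b. -/
def S_POLO : Prop := ∀ (q : ℕ) (f : ℚ[X]), q.Prime → 3 < q → (q % 8 = 1 ∨ q % 8 = 7) →
  f.natDegree = 2 → f.comp (1 - X) = f → f ∣ Rn (3 * q + 2) →
  ∃ Y : ℤ, ¬ (3 : ℤ) ∣ Y ∧ (X ^ 2 - X + C (((3 - Y : ℤ) : ℚ) / 12)) ∣ Polynomial.bernoulli (3 * q + 2)

/-- IRR.  From SMALL, `H319B.two_factor_R`, `H319B.irred_of`, POLO, CENO.  g h = R_n, monic, the smaller one, g,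
has degree < orderOf (2 : ZMod q), so 0 or 2 (SMALL).  If 2, g is irreducible, and g(1 - X) divides R_n(1 - X) =
R_n; if it is not g, the product g g(1 - X) is a divisor of degree 4, against SMALL (4 < order).  So
g(1 - X) = g, POLO and CENO give Y. -/
def S_IRR : Prop := ∃ q0 : ℕ, ∀ q : ℕ, q0 ≤ q → q.Prime → (q % 8 = 1 ∨ q % 8 = 7) →
  bd 3 q < (orderOf (2 : ZMod q) : ℝ) → (∀ Y : ℤ, ¬ (3 : ℤ) ∣ Y → ¬ Rel (3 * q + 2) Y) →
  Irreducible (Rn (3 * q + 2))

/-- FIN2 from IRR: the exceptional q are < q0, or counted by `H319B.few_bad_primes (5 √3)`, or n = 3q + 2 is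
counted by S_BAD (C (3x+2)^(5/6)). -/
def S_FIN2 : Prop := ∃ K : ℝ, 0 < K ∧ ∃ x₀ : ℕ, ∀ x : ℕ, x₀ ≤ x →
  ({q : ℕ | q ≤ x ∧ q.Prime ∧ (q % 8 = 1 ∨ q % 8 = 7) ∧
    ¬ Irreducible (Rn (3 * q + 2))}.ncard : ℝ) ≤ K * x / (Real.log x) ^ 2

end Pool.Agent.L7h34.BO
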