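import Pool.Agent.L7h34.BO.Stm

set_option autoImplicit false

/-! Project BO, one more part. -/

namespace Pool.Agent.L7h34.BO

open Finset Polynomial Pool.Agent.H319B

/-- INF from FIN2: the irreducible case occurs for infinitely many primes of the class 1 mod 8 and of the
class 7 mod 8.  Proof: if the set were finite, all but finitely many primes q = a mod 8 would be
exceptional, so by FIN2 the number A(x) of primes q ≤ x, q = a mod 8, would be ≤ K' x / (log x)^2, and
∑ 1/q over the primes q = a mod 8 would converge (dyadic blocks: ∑_j K' 2^(j+1) / (2^j (log 2^(j+1))^2)),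
against `ArithmeticFunction.vonMangoldt.not_summable_residueClass_prime_div` (Mathlib, Dirichlet) with log q
(then use blocks with weight log q / q: ∑_j K' 2^(j+1) log(2^(j+1)) / (2^j (log 2^(j+1))^2) diverges, so
compare with 1/q; if only the version with the weight log q / q is available, use a lower bound for
∑_{q ≤ x} log q / q or for ∑ log q / q^s as s → 1 from the library). -/
def S_INF : Prop := ∀ a : ℕ, a = 1 ∨ a = 7 →
  {q : ℕ | q.Prime ∧ q % 8 = a ∧ Irreducible (Rn (3 * q + 2))}.Infinite

end Pool.Agent.L7h34.BO
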