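import Pool.Agent.L7h34.BO.Stm

set_option autoImplicit false

/-!
# Project BO, second stage: quadratic factors of R_n for ALL odd n (problem MP_f85b9b_nt)

Theorem (s_FINQ): for all but `O(N^(5/6))` odd `n ≤ N`, every monic quadratic factor of `R_n` is `x^2 - x + c` with
an integer `c`, and it can exist only if `n = 2` mod 3 and `n = 1` or `3` mod 8 (example: n = 11, c = -1).
-/

namespace Pool.Agent.L7h34.BO

open Finset Polynomial Pool.Agent.H319B Pool.Agent.L7h58.BP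

/-- MTP.  `H319B.mod_two_factor` for a product.  Same proof: P1 in ℤ[X] with P1.map = C (D n) * Rn n as there;
Rn n = g h k; `gauss_fac` for P1 with g and h k gives G and H1, `gauss_fac` for H1 with h and k gives H and K;
the leading coefficients are odd. -/
def S_MTP : Prop := ∀ n : ℕ, 5 ≤ n → Odd n → ∀ g h : ℚ[X], g.Monic → h.Monic → g * h ∣ Rn n →
  ∃ u v : (ZMod 2)[X], u * v ∣ (1 + X) ^ (n - 2) + X ^ (n - 2) ∧ u.natDegree = g.natDegree ∧
    v.natDegree = h.natDegree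

/-- QUA.  From MTP and `H319B.cyclo_factor`.  The prime l ∣ n - 2 of cyclo_factor for the degree 2 has
orderOf (2 : ZMod l) ≤ 2, so l = 3 (order 1: l ∣ 1; order 2: l ∣ 3; order 0 only for l = 2, but n - 2 is odd), and
n = 2 mod 3.  W = (1+X)^(n-2) + X^(n-2) has no divisor of degree 1 (order ≤ 1), so g is irreducible.
g' = g(1 - X) is monic and divides R_n (`Rn_symm` in BO/Irr.lean).  If g' ≠ g, then g, g' are coprime, g g' ∣ R_n,
and MTP gives u v ∣ W with u, v of degree 2 without roots in ZMod 2, so u = v = X^2 + X + 1, whose square does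
not divide W, since W is separable: W' = (n-2) ((1+X)^(n-3) + X^(n-3)), n - 2 odd, and
(1 + X) ((1+X)^(n-3) + X^(n-3)) + W = X^(n-3), X ^ (n-3) and W are coprime (constant coefficient 1). -/
def S_QUA : Prop := ∀ n : ℕ, 5 ≤ n → Odd n → ∀ g : ℚ[X], g.Monic → g ∣ Rn n → g.natDegree = 2 →
  n % 3 = 2 ∧ g.comp (1 - X) = g

/-- POLG: POLO for all odd n = 2 mod 3 (helper61's proof: a = den c is 1 or 3; a = 1 is impossible for
n = 5 or 7 mod 8). -/
def S_POLG : Prop := ∀ n : ℕ, 5 ≤ n → Odd n → n % 3 = 2 → ∀ c : ℚ, (X ^ 2 - X + C c) ∣ Rn n →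
  (∃ Y : ℤ, ¬ (3 : ℤ) ∣ Y ∧ (X ^ 2 - X + C (((3 - Y : ℤ) : ℚ) / 12)) ∣ Polynomial.bernoulli n) ∨
    ((n % 8 = 1 ∨ n % 8 = 3) ∧ ∃ b : ℤ, c = b)

/-- FINQ from QUA, POLG, CENO and S_BAD.  g = X^2 - X + C c by `L7h10.BP.sym_shape` (POL.lean) or directly from
g.comp (1 - X) = g; Y ≠ 0. -/
def S_FINQ : Prop := ∃ K : ℝ, 0 < K ∧ ∀ N : ℕ, 1 ≤ N →
  ({n : ℕ | n ≤ N ∧ Odd n ∧ 5 ≤ n ∧ ∃ g : ℚ[X], g.Monic ∧ g ∣ Rn n ∧ g.natDegree = 2 ∧
    ¬ (n % 3 = 2 ∧ (n % 8 = 1 ∨ n % 8 = 3) ∧ ∃ c : ℤ, g = X ^ 2 - X + C (c : ℚ))}.ncard : ℝ) ≤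
    K * (N : ℝ) ^ (5 / 6 : ℝ)

end Pool.Agent.L7h34.BO
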